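import Pool.Agent.Work.MP_db9399_bg.Base
import Pool.Agent.Work.MP_db9399_ot.Interface2
import Pool.Agent.Work.MP_db9399_lh_helper99.VCOL

/-!
# MP_db9399, THEOREM OUTC, block VCOLC (helper49): the vertex colouring with a conflict graph

Copy of `lh_helper99/VCOL.lean` (helper99) with `G` replaced by `G ⊔ Cf` in the call of VCX.
-/

set_option autoImplicit false

namespace Pool.Agent.Work.MP_db9399_ot.helper49

open Finset Classical
open Pool.Agent.Work.MP_db9399_all (nb mis)
open Pool.Agent.Work.MP_db9399_px (LWalk hit ee)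
open Pool.Agent.Work.MP_db9399_bg (den cl LabP HPre Lbl Ix bx den_bx mem_cl mem_nb mem_bx card_univ_zmod card_univ_fin)
open Pool.Agent.Work.MP_db9399_lc (BL)
open Pool.Agent.Work.MP_db9399_lc.helper99.VCOL
open Pool.Agent.Work.MP_db9399_lh
open Pool.Agent.Work.MP_db9399_lh.helper99 (den_prod_univ)
open Pool.Agent.Work.MP_db9399_ot

universe u

/-- the conflict graph outside `UH` -/
def cfo {V : Type u} (Cf : SimpleGraph V) (UH : Finset V) : SimpleGraph V where
  Adj v w := Cf.Adj v w ∧ v ∉ UH ∧ w ∉ UH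
  symm := ⟨fun _ _ h => ⟨h.1.symm, h.2.2, h.2.1⟩⟩
  loopless := ⟨fun v h => Cf.loopless.irrefl v h.1⟩

/-- the union of two graphs -/
def gun {V : Type u} (G C : SimpleGraph V) : SimpleGraph V where
  Adj v w := G.Adj v w ∨ C.Adj v w
  symm := ⟨fun _ _ h => h.elim (fun h => Or.inl h.symm) (fun h => Or.inr h.symm)⟩
  loopless := ⟨fun v h => h.elim (fun h => G.loopless.irrefl v h) (fun h => C.loopless.irrefl v h)⟩

theorem gun_adj {V : Type u} {G C : SimpleGraph V} {v w : V} :
    (gun G C).Adj v w ↔ G.Adj v w ∨ C.Adj v w := Iff.rfl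

theorem cfo_adj {V : Type u} {Cf : SimpleGraph V} {UH : Finset V} {v w : V} :
    (cfo Cf UH).Adj v w ↔ Cf.Adj v w ∧ v ∉ UH ∧ w ∉ UH := Iff.rfl

/-- the numerical inequality -/
theorem numC {g p σ ε0 D D' M M' a : ℝ} (hg : 0 < g) (hg1 : g ≤ 1 / 10) (hp0 : 0 < p)
    (hσ0 : 0 < σ) (hε00 : 0 < ε0) (hεg : ε0 ≤ g * p / 20) (hD : 0 ≤ D) (hD' : 0 ≤ D')
    (hD2 : D' ≤ (p + σ + ε0) * D + 1) (h1 : g / 3 * ((p + σ) * D + 1) ^ 2 ≤ M)
    (ha : a ≤ (p + σ) * D) (h2 : M - a * (ε0 * D) ≤ M') : g / 6 * D' ^ 2 ≤ M' := by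
  have h3 : a * (ε0 * D) ≤ (p + σ) * D * (ε0 * D) :=
    mul_le_mul_of_nonneg_right ha (by positivity)
  have h5 : g / 6 * D' ^ 2 ≤ g / 6 * ((p + σ + ε0) * D + 1) ^ 2 :=
    mul_le_mul_of_nonneg_left (pow_le_pow_left₀ hD' hD2 2) (by positivity)
  set X : ℝ := (p + σ) * D + 1 with hX
  have hX0 : 0 ≤ X := by positivity
  have hpX : p * D ≤ X := by
    have h6 : 0 ≤ σ * D := by positivity
    have h7 : X = p * D + σ * D + 1 := by rw [hX]; ring
    rw [h7]
    linarith
  have h7 : ε0 * D ≤ g * p / 20 * D := mul_le_mul_of_nonneg_right hεg hD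
  have h6 : (p + σ + ε0) * D + 1 ≤ 11 / 10 * X := by
    have h8 : g * p / 20 * D ≤ 1 / 200 * (p * D) := by
      have h9 : g * (p * D) ≤ 1 / 10 * (p * D) := mul_le_mul_of_nonneg_right hg1 (by positivity)
      have h10 : g * p / 20 * D = g * (p * D) / 20 := by ring
      rw [h10]
      linarith
    have e2 : (p + σ + ε0) * D + 1 = X + ε0 * D := by rw [hX]; ring
    rw [e2]
    linarith
  have h7' : ((p + σ + ε0) * D + 1) ^ 2 ≤ (11 / 10 * X) ^ 2 :=
    pow_le_pow_left₀ (by positivity) h6 2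
  have h8 : (p + σ) * D * (ε0 * D) ≤ g / 20 * X ^ 2 := by
    have h9 : ε0 * D ≤ g / 20 * X := by
      have h11 : g / 20 * (p * D) ≤ g / 20 * X :=
        mul_le_mul_of_nonneg_left hpX (by positivity)
      have h12 : g * p / 20 * D = g / 20 * (p * D) := by ring
      rw [h12] at h7
      linarith
    have h10 : (p + σ) * D ≤ X := by rw [hX]; linarith
    calc (p + σ) * D * (ε0 * D) ≤ X * (g / 20 * X) :=
          mul_le_mul h10 h9 (by positivity) hX0
      _ = g / 20 * X ^ 2 := by ring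
  have h9 : g / 6 * ((p + σ + ε0) * D + 1) ^ 2 ≤ g / 6 * (11 / 10 * X) ^ 2 :=
    mul_le_mul_of_nonneg_left h7' (by positivity)
  have h10 : 0 ≤ g * X ^ 2 := by positivity
  have h11 : g / 6 * (11 / 10 * X) ^ 2 = 121 / 600 * (g * X ^ 2) := by ring
  have h12 : g / 3 * X ^ 2 - g / 20 * X ^ 2 = 17 / 60 * (g * X ^ 2) := by ring
  linarith

/-- missing pairs of the larger graph -/
theorem mis_sup {V : Type u} [Fintype V] (G C : SimpleGraph V) (A A' : Finset V) (h : A ⊆ A')
    {b : ℝ} (hb : ∀ v, ((nb C v).card : ℝ) ≤ b) :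
    ((mis G A).card : ℝ) - A.card * b ≤ (mis (gun G C) A').card := by
  have h1 : mis G A ⊆ mis (gun G C) A' ∪ A.biUnion (fun a => (nb C a).image (fun x => (a, x))) := by
    rintro ⟨a, x⟩ hax
    unfold mis at hax
    obtain ⟨hm, h2, h3⟩ := mem_filter.1 hax
    rw [mem_product] at hm
    rw [mem_union]
    by_cases h4 : C.Adj a x
    · exact Or.inr (mem_biUnion.2 ⟨a, hm.1, mem_image.2 ⟨x, mem_nb.2 h4, rfl⟩⟩)
    · refine Or.inl ?_
      unfold mis
      refine mem_filter.2 ⟨mem_product.2 ⟨h hm.1, h hm.2⟩, h2, ?_⟩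
      rintro (h5 | h5)
      · exact h3 h5
      · exact h4 h5
  have h2 := (card_le_card h1).trans (card_union_le _ _)
  have h3 : (A.biUnion (fun a => (nb C a).image (fun x => (a, x)))).card ≤
      ∑ a ∈ A, (nb C a).card :=
    card_biUnion_le.trans (sum_le_sum fun a _ => card_image_le)
  have h4 : ((mis G A).card : ℝ) ≤ (mis (gun G C) A').card + ∑ a ∈ A, ((nb C a).card : ℝ) := by
    have : (mis G A).card ≤ (mis (gun G C) A').card + ∑ a ∈ A, (nb C a).card := by omega
    exact_mod_cast this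
  have h5 : ∑ a ∈ A, ((nb C a).card : ℝ) ≤ A.card * b := by
    have := sum_le_sum (s := A) fun a _ => hb a
    rwa [sum_const, nsmul_eq_mul] at this
  linarith

/-- **VCOLC** -/
theorem stmt_VCOLC : Stmt_VCOLC.{u} := by
  intro g hg hg1
  obtain ⟨κX, Δ0, hκ, hκ1, hvcx⟩ :=
    Pool.Agent.Work.MP_db9399_exp.helper99.stmt_VCX.{u} (g / 6) (by positivity)
  refine ⟨κX / 2, by positivity, by linarith, ?_⟩
  intro l m r K K1 S
  set p : ℝ := 1 / ((2 * (m : ℝ) + 1) * ((r : ℝ) + 1)) with hp
  have hp0 : 0 < p := by positivity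
  have hp1 : p ≤ 1 := by
    rw [hp, div_le_one (by positivity)]
    have h1 : (1 : ℝ) ≤ 2 * (m : ℝ) + 1 := by
      have : (0 : ℝ) ≤ m := Nat.cast_nonneg _
      linarith
    have h2 : (1 : ℝ) ≤ (r : ℝ) + 1 := by
      have : (0 : ℝ) ≤ r := Nat.cast_nonneg _
      linarith
    nlinarith
  set σ : ℝ := min (p ^ 2 * g / 20) (κX * p / 8) with hσ
  have hσ0 : 0 < σ := lt_min (by positivity) (by positivity)
  set ε0 : ℝ := min (g * p / 20) (κX * p / 8) with hε0
  have hε00 : 0 < ε0 := lt_min (by positivity) (by positivity)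
  have hεg : ε0 ≤ g * p / 20 := min_le_left _ _
  have hεκ : ε0 ≤ κX * p / 8 := min_le_right _ _
  have hgp : g * p ≤ g := by nlinarith
  have hεg' : ε0 ≤ g / 20 := by linarith
  refine ⟨σ, ε0, ⌈120 / (g * p ^ 2) + 100 / p + Δ0 / p + 4 / (κX * p)⌉₊, hσ0, hε00, ?_⟩
  intro V _ G Cf d k w c1 UH c0 EH tu lab e τ pal hd hBG hLab hCf hH he hpal
  have hdR : 120 / (g * p ^ 2) + 100 / p + Δ0 / p + 4 / (κX * p) ≤ d := by
    refine (Nat.le_ceil _).trans ?_
    exact_mod_cast hd
  have q1 : 0 < 120 / (g * p ^ 2) := by positivity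
  have q2 : 0 < 100 / p := by positivity
  have q3 : 0 ≤ (Δ0 : ℝ) / p := by positivity
  have q4 : 0 < 4 / (κX * p) := by positivity
  have d1 : 120 / (g * p ^ 2) ≤ d := by linarith
  have d2 : 100 / p ≤ d := by linarith
  have d3 : (Δ0 : ℝ) ≤ d * p := by
    have : (Δ0 : ℝ) / p ≤ d := by linarith
    rwa [div_le_iff₀ hp0] at this
  have d4 : 4 ≤ d * (κX * p) := by
    have : 4 / (κX * p) ≤ d := by linarith
    rwa [div_le_iff₀ (by positivity)] at this
  have hdnn : (0 : ℝ) ≤ d := Nat.cast_nonneg _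
  set Δ : ℕ := ⌈(p + σ + ε0) * d⌉₊ with hΔ
  have hpd0 : 0 ≤ (p + σ + ε0) * d := by positivity
  have hΔ1 : (p + σ + ε0) * d ≤ Δ := Nat.le_ceil _
  have hΔ2 : (Δ : ℝ) ≤ (p + σ + ε0) * d + 1 := (Nat.ceil_lt_add_one hpd0).le
  set S1 : Type := ZMod (2 * m + 1) × Fin (r + 1) with hS
  set sub : V → S1 := fun v => (ce (lab v), su (lab v)) with hsub
  set P : S1 → Finset (Lh l m r K K1 S) := fun s => (bx {s.1} univ {s.2} univ univ univ) ×ˢ univ with hP
  have hden : ∀ s, den (P s) = p := by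
    intro s
    simp only [hP]
    rw [den_prod_univ, den_bx, card_univ_zmod, card_univ_zmod, card_univ_fin, card_univ_fin,
      Finset.card_singleton, Finset.card_singleton, hp]
    have h1 : (2 * (m : ℝ) + 1) ≠ 0 := by positivity
    have h2 : (2 * (l : ℝ) + 1) ≠ 0 := by positivity
    have h3 : ((r : ℝ) + 1) ≠ 0 := by positivity
    have h4 : ((K : ℝ) + 1) ≠ 0 := by positivity
    have h5 : ((K1 : ℝ) + 1) ≠ 0 := by positivity
    push_cast
    field_simp
  have hcl : ∀ v s, v ∈ cl lab (P s) ↔ sub v = s := by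
    intro v s
    rw [mem_cl]
    simp only [hP, mem_product, mem_bx, Finset.mem_singleton, Finset.mem_univ, true_and, and_true, hsub]
    constructor
    · rintro ⟨h1, h2⟩
      exact Prod.ext h1 h2
    · intro h
      rw [← h]
      exact ⟨rfl, rfl⟩
  have hC'adj : ∀ v w, (cfo Cf UH).Adj v w ↔ Cf.Adj v w ∧ v ∉ UH ∧ w ∉ UH := fun v w => Iff.rfl
  generalize cfo Cf UH = C' at hC'adj
  have hC'b : ∀ v, ((nb C' v).card : ℝ) ≤ ε0 * d := by
    intro v
    refine le_trans ?_ (hCf v)
    have : nb C' v ⊆ nb Cf v := by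
      intro x hx
      rw [mem_nb] at hx ⊢
      exact ((hC'adj _ _).1 hx).1
    exact_mod_cast card_le_card this
  have hG'adj : ∀ v w, (gun G C').Adj v w ↔ G.Adj v w ∨ C'.Adj v w := fun v w => Iff.rfl
  have hmis : ∀ A A' : Finset V, A ⊆ A' →
      ((mis G A).card : ℝ) - A.card * (ε0 * d) ≤ (mis (gun G C') A').card :=
    fun A A' h => mis_sup G C' A A' h hC'b
  generalize gun G C' = G' at hG'adj hmis
  set A : V → S1 → Finset V := fun v s => (nb G v).filter (fun w => w ∉ UH ∧ sub w = s) with hA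
  set A' : V → S1 → Finset V := fun v s => (nb G' v).filter (fun w => w ∉ UH ∧ sub w = s)
    with hA'
  have hAA' : ∀ v s, A v s ⊆ A' v s := by
    intro v s x hx
    simp only [hA, hA', mem_filter, mem_nb] at hx ⊢
    exact ⟨(hG'adj _ _).2 (Or.inl hx.1), hx.2⟩
  have hA'A : ∀ v s, ((A' v s).card : ℝ) ≤ (A v s).card + ε0 * d := by
    intro v s
    have h1 : A' v s ⊆ A v s ∪ nb C' v := by
      intro x hx
      simp only [hA', mem_filter, mem_nb] at hx
      rw [mem_union, mem_nb]
      rcases (hG'adj _ _).1 hx.1 with h | h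
      · refine Or.inl ?_
        simp only [hA, mem_filter, mem_nb]
        exact ⟨h, hx.2⟩
      · exact Or.inr h
    have h2 := (card_le_card h1).trans (card_union_le _ _)
    have h3 : ((A' v s).card : ℝ) ≤ (A v s).card + (nb C' v).card := by exact_mod_cast h2
    linarith [hC'b v]
  have hAB : ∀ v s, A v s ⊆ nb G v ∩ cl lab (P s) := by
    intro v s w hw
    simp only [hA, mem_filter] at hw
    exact mem_inter.2 ⟨hw.1, (hcl w s).2 hw.2.2⟩
  have hBA : ∀ v s, (nb G v ∩ cl lab (P s)).card ≤ (A v s).card + 2 := by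
    intro v s
    have h1 : nb G v ∩ cl lab (P s) ⊆ A v s ∪ (nb G v ∩ UH) := by
      intro w hw
      rw [mem_inter, hcl] at hw
      rw [mem_union]
      by_cases hwU : w ∈ UH
      · exact Or.inr (mem_inter.2 ⟨hw.1, hwU⟩)
      · refine Or.inl ?_
        simp only [hA, mem_filter]
        exact ⟨hw.1, hwU, hw.2⟩
    have h2 := (card_le_card h1).trans (card_union_le _ _)
    have h3 := hH.two v
    omega
  have hdeg : ∀ v : V, ((nb G v).card : ℝ) ≤ d := fun v => by exact_mod_cast hBG.deg v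
  have hBup : ∀ v s, ((nb G v ∩ cl lab (P s)).card : ℝ) ≤ (p + σ) * d := by
    intro v s
    have h1 := (abs_le.mp (hLab.deg v (P s))).2
    rw [hden] at h1
    have h2 := mul_le_mul_of_nonneg_left (hdeg v) hp0.le
    linarith
  have hAup : ∀ v s, ((A v s).card : ℝ) ≤ (p + σ) * d := by
    intro v s
    exact (by exact_mod_cast card_le_card (hAB v s) :
      ((A v s).card : ℝ) ≤ (nb G v ∩ cl lab (P s)).card).trans (hBup v s)
  obtain ⟨c, hc1, hc2, hc3⟩ := hvcx G' UH Δ k (fun u => {c0 u}) S1 sub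
    (fun s => (univ.filter (fun y => pal y = s.2 ∧ τ y.2 = none)).image (fun y => e (s.1, y)))
    (by
      have : (Δ0 : ℝ) ≤ Δ := by nlinarith
      exact_mod_cast this)
    (by
      intro v s
      have h1 : ((A' v s).card : ℝ) ≤ Δ := by
        have h2 := hA'A v s
        have h3 := hAup v s
        linarith
      have h2 : (A' v s).card ≤ Δ := by exact_mod_cast h1
      have e1 : A' v s = (nb G' v).filter (fun w => w ∉ UH ∧ sub w = s) := rfl
      rw [e1] at h2
      refine le_trans (le_of_eq ?_) h2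
      apply congrArg Finset.card
      ext x
      simp only [mem_filter])
    (by
      intro v s
      have hlow : (p * (1 - ε0) - σ) * d - 2 ≤ ((A v s).card : ℝ) := by
        have h1 := (abs_le.mp (hLab.deg v (P s))).1
        rw [hden] at h1
        have h2 := mul_le_mul_of_nonneg_left (hBG.low v) hp0.le
        have h3 : ((nb G v ∩ cl lab (P s)).card : ℝ) ≤ (A v s).card + 2 := by
          exact_mod_cast hBA v s
        nlinarith
      have hsps := hLab.sps v (P s)
      rw [hden] at hsps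
      have h1 := num (g := g) (p := p) (σ := σ) (ε0 := ε0) (D := (d : ℝ))
        (a := ((A v s).card : ℝ)) (B := ((nb G v ∩ cl lab (P s)).card : ℝ))
        (E := ee G (A v s) (A v s)) (M := ((mis G (A v s)).card : ℝ)) hg hg1 hp0 hp1 hσ0.le
        (min_le_left _ _) hε00.le hεg' d1 d2 hlow
        (by exact_mod_cast card_le_card (hAB v s)) (hBup v s)
        ((ee_mono G (hAB v s)).trans (hsps.trans (by
          have := ee_nb hg hBG (by linarith) v
          have h2 := mul_le_mul_of_nonneg_left this (sq_nonneg p)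
          linarith))) (mis_ge G (A v s))
      have h2 := hmis (A v s) (A' v s) (hAA' v s)
      have h4 : g / 6 * (Δ : ℝ) ^ 2 ≤ ((mis G' (A' v s)).card : ℝ) :=
        numC hg hg1 hp0 hσ0 hε00 hεg hdnn (Nat.cast_nonneg _) hΔ2 h1 (hAup v s) h2
      have e1 : A' v s = (nb G' v).filter (fun w => w ∉ UH ∧ sub w = s) := rfl
      rw [e1] at h4
      refine le_trans h4 (le_of_eq ?_)
      apply congrArg (fun T : Finset V => ((mis G' T).card : ℝ))
      ext x
      simp only [mem_filter])
    (by intro u _; simp)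
    (by
      intro v
      have h1 : univ.filter (fun u => u ∈ UH ∧ G'.Adj v u) = nb G v ∩ UH := by
        ext u
        simp only [mem_filter, mem_univ, true_and, mem_inter, mem_nb]
        constructor
        · rintro ⟨hu, h⟩
          rcases (hG'adj _ _).1 h with h | h
          · exact ⟨h, hu⟩
          · exact absurd hu ((hC'adj _ _).1 h).2.2
        · rintro ⟨h, hu⟩
          exact ⟨hu, (hG'adj _ _).2 (Or.inl h)⟩
      rw [h1]
      exact hH.two v)
    (by
      intro s
      have h1 : ((univ.filter (fun y => pal y = s.2 ∧ τ y.2 = none)).image (fun y => e (s.1, y))).card =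
          (univ.filter (fun y => pal y = s.2 ∧ τ y.2 = none)).card := by
        apply card_image_of_injective
        intro y y' h
        have := he h
        exact (Prod.mk.injEq _ _ _ _ ▸ this : _ ∧ _).2
      rw [h1]
      have h2 := hpal s.2
      have h3 : (1 - κX / 2) * (p * d) ≤ ((univ.filter (fun y => pal y = s.2 ∧ τ y.2 = none)).card : ℝ) := by
        have h4 : 0 < (2 * (m : ℝ) + 1) * ((r : ℝ) + 1) := by positivity
        have h5 : (1 - κX / 2) * (p * d) = (1 - κX / 2) * d / ((2 * (m : ℝ) + 1) * ((r : ℝ) + 1)) := by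
          rw [hp]; ring
        rw [h5, div_le_iff₀ h4]
        linarith
      refine le_trans ?_ h3
      have h6 : σ ≤ κX * p / 8 := min_le_right _ _
      have h7 : σ * d ≤ κX * p / 8 * d := mul_le_mul_of_nonneg_right h6 hdnn
      have h7' : ε0 * d ≤ κX * p / 8 * d := mul_le_mul_of_nonneg_right hεκ hdnn
      have h8 : (1 - κX) * Δ ≤ (1 - κX) * ((p + σ + ε0) * d + 1) :=
        mul_le_mul_of_nonneg_left hΔ2 (by linarith)
      have h9 : (σ + ε0) * d + 1 ≤ κX * p * d / 2 := by nlinarith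
      have h10 : (1 - κX) * ((σ + ε0) * d + 1) ≤ 1 * ((σ + ε0) * d + 1) :=
        mul_le_mul_of_nonneg_right (by linarith) (by positivity)
      have e1 : (1 - κX) * ((p + σ + ε0) * d + 1) =
        (1 - κX) * (p * d) + (1 - κX) * ((σ + ε0) * d + 1) := by ring
      rw [e1] at h8
      nlinarith)
    (by
      intro s s' hss
      rw [Finset.disjoint_left]
      intro x hx hx'
      obtain ⟨y, hy, rfl⟩ := mem_image.1 hx
      obtain ⟨y', hy', h⟩ := mem_image.1 hx'
      rw [mem_filter] at hy hy'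
      have h1 := he h
      rw [Prod.mk.injEq] at h1
      apply hss
      refine Prod.ext h1.1.symm ?_
      rw [← hy.2.1, ← hy'.2.1, h1.2])
  refine ⟨fun v => if v ∈ UH then c0 v else c v, ⟨?_, ?_, ?_⟩, ?_⟩
  · intro v hv
    simp only [if_pos hv]
  · intro v hv
    simp only [if_neg hv]
    obtain ⟨y, hy, hy'⟩ := mem_image.1 (hc1 v hv)
    exact ⟨y, hy'.symm, (mem_filter.1 hy).2⟩
  · intro v v' hvv
    by_cases hv : v ∈ UH
    · by_cases hv' : v' ∈ UH
      · simp only [if_pos hv, if_pos hv']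
        exact hH.cc v v' (hH.ind v hv v' hv' hvv)
      · simp only [if_pos hv, if_neg hv']
        have := hc3 v' hv' v hv ((hG'adj _ _).2 (Or.inl hvv.symm))
        intro h
        exact this (by rw [mem_singleton]; exact h.symm)
    · by_cases hv' : v' ∈ UH
      · simp only [if_neg hv, if_pos hv']
        have := hc3 v hv v' hv' ((hG'adj _ _).2 (Or.inl hvv))
        intro h
        exact this (by rw [mem_singleton]; exact h)
      · simp only [if_neg hv, if_neg hv']
        exact hc2 v v' hv hv' ((hG'adj _ _).2 (Or.inl hvv))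
  · intro v v' hv hv' hvv
    simp only [if_neg hv, if_neg hv']
    exact hc2 v v' hv hv' ((hG'adj _ _).2 (Or.inr ((hC'adj _ _).2 ⟨hvv, hv, hv'⟩)))

end Pool.Agent.Work.MP_db9399_ot.helper49
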